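import Pool.Agent.TH639.SK.Glob

/-!
The bound for the orders of vanishing.
-/

set_option autoImplicit false
set_option linter.all false
set_option maxHeartbeats 4000000

open PowerSeries FF Module

namespace Pool.Agent.TH639.SK

open Pool.Agent.W343.BSD Pool.Agent.W313.Hyp Pool.Agent.H123R3.ZT
open Pool.Agent.TH639.SC hiding card_RFR
open Pool.Agent.TH639.SG (red_char' eq_one_of_pow muL muL_eq)

theorem order_le {R : Type} [Field R] {ℓ : ℕ} [hp : Fact ℓ.Prime] [CharP R ℓ]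
    {U V : PowerSeries R} {a b : ℕ} (hU : IsMu U a) (hV : IsMu V b) {s : ℕ} {H : Polynomial R}
    (h : U * (((1 - Polynomial.X) ^ s * H : Polynomial R) : PowerSeries R) = V) : s + a ≤ b := by
  obtain ⟨P, rfl, hP, rfl⟩ := hU
  obtain ⟨Q, rfl, hQ, rfl⟩ := hV
  rw [← Polynomial.coe_mul] at h
  have h1 := Polynomial.coe_injective R h
  obtain ⟨hX, hXm⟩ := rm_zf (R := R) (ℓ := ℓ) one_pos
  rw [pow_one, padicValNat_one_right, pow_zero] at hXm
  rw [pow_one] at hX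
  have hne : (1 - Polynomial.X) ^ s * H ≠ 0 := by
    intro h0
    rw [h0, mul_zero] at h1
    exact hQ h1.symm
  rw [← h1, rm_mul 1 hP hne, rm_mul 1 (left_ne_zero_of_mul hne) (right_ne_zero_of_mul hne),
    rm_pow 1 hX, hXm]
  omega

section glob

variable {k K : Type} [Field k] [Finite k] [Field K] [Algebra k K] [FF.IsFF k K] {ι : Type}
  [Fintype ι] {L : ι → Type} [∀ i, Field (L i)] [∀ i, Algebra k (L i)] [∀ i, Algebra K (L i)]
  [∀ i, IsScalarTower k K (L i)] {A : Type} [CommRing A] [CharZero A] [Algebra.IsIntegral ℤ A]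
  {ℓ : ℕ}

theorem isMu_num {R : Type} [Field R] [hp : Fact ℓ.Prime] [CharP R ℓ] {F : Type} [Field F]
    [Algebra k F] [FF.IsFF k F] (hq : ((Nat.card k : ℕ) : R) = 1) {P : Polynomial ℤ}
    (hP : IsZetaNumRel k F P) :
    IsMu ((P.map (Int.castRingHom R) : Polynomial R) : PowerSeries R) (muL ℓ P) := by
  refine ⟨_, rfl, ?_, muL_eq P⟩
  intro h
  have h1 := num_modR (R := R) hq hP
  rw [h, Polynomial.coe_zero, zero_mul] at h1
  exact pow_ne_zero 2 (one_sub_ne (constDeg_pos k F)) h1.symm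

open Classical in
theorem bound (hℓ : ℓ.Prime) (hd : ℓ ∣ Nat.card k - 1) {χ : MulChar k A} {a : ℕ}
    (hχ : χ ^ (ℓ ^ a) = 1) {f : Polynomial K} {θ : ∀ i, L i}
    (hF : IsFam f θ) [∀ i, FF.IsFF k (L i)]
    {PK : Polynomial ℤ} (hPK : IsZetaNumRel k K PK) (hrK : constDeg k K = 1)
    {PL : ι → Polynomial ℤ} (hPL : ∀ i, IsZetaNumRel k (L i) (PL i))
    {S : Place k K → ∀ i, Finset (Place k (L i))} {e d : Place k K → (Σ i, Place k (L i)) → ℕ}
    (D : ∀ v, FiberData v (S v) (e v) (d v)) (S0 T : Finset (Place k K)) (hST : S0 ⊆ T)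
    (h : ∀ v : Place k K, Polynomial v.RF) (h0 : ∀ v, v ∉ S0 → h v ≠ 0)
    (hgood : ∀ (R : Type) [Field R], ∀ v, v ∉ T → ∀ φ : ℕ → PowerSeries R,
      ∏ i, ∏ w ∈ S v i, φ w.deg = ∏ P ∈ facs' v (h v), φ (v.deg * P.1.natDegree))
    {κ : Type} (Z : Finset κ) (α : κ → A)
    (hZ : ∀ z ∈ Z, ∃ c j : ℕ, α z ^ (ℓ ^ j) = (Nat.card k : A) ^ c) (r : κ → ℕ)
    (H : Polynomial A)
    (hH : LX χ S0 h = (((∏ z ∈ Z, (1 - Polynomial.C (α z) * Polynomial.X) ^ r z) * H :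
      Polynomial A) : PowerSeries A)) :
    ∑ z ∈ Z, r z + (∑ i, 2 * ℓ ^ padicValNat ℓ (constDeg k (L i)) + muL ℓ PK +
      ∑ v ∈ S0, ℓ ^ padicValNat ℓ v.deg +
      ∑ v ∈ T \ S0, ∑ P ∈ facs' v (h v), ℓ ^ padicValNat ℓ (v.deg * P.1.natDegree)) ≤
      2 + ∑ i, muL ℓ (PL i) + ∑ v ∈ T, ∑ i, ∑ w ∈ S v i, ℓ ^ padicValNat ℓ w.deg := by
  have hFp : Fact ℓ.Prime := ⟨hℓ⟩
  obtain ⟨R, _, _, ρ, hq⟩ := exists_hom (A := A) hℓ hd
  have hid := identityK ρ (fun u hu => red_char' ρ hχ hu) hq hF hPK hrK hPL D S0 T hST h h0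
    (hgood R)
  have h6 : ∀ z ∈ Z, ((1 - Polynomial.C (α z) * Polynomial.X) ^ r z).map ρ =
      (1 - Polynomial.X) ^ r z := by
    intro z hz
    obtain ⟨c, j, hj⟩ := hZ z hz
    have h7 : ρ (α z) = 1 := by
      apply eq_one_of_pow (ℓ := ℓ) (m := j)
      rw [← map_pow, hj, map_pow, map_natCast, hq, one_pow]
    rw [Polynomial.map_pow, Polynomial.map_sub, Polynomial.map_one, Polynomial.map_mul,
      Polynomial.map_C, Polynomial.map_X, h7, Polynomial.C_1, one_mul]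
  have hred : PowerSeries.map ρ (LX χ S0 h) =
      (((1 - Polynomial.X) ^ (∑ z ∈ Z, r z) * H.map ρ : Polynomial R) : PowerSeries R) := by
    rw [hH, ← Polynomial.polynomial_map_coe, Polynomial.map_mul, Polynomial.map_prod,
      Finset.prod_congr rfl h6, Finset.prod_pow_eq_pow_sum]
  have hU : IsMu ((∏ i, (1 - X ^ constDeg k (L i)) ^ 2) *
      ((PK.map (Int.castRingHom R) : Polynomial R) : PowerSeries R) *
      (∏ v ∈ S0, (1 - X ^ v.deg)) *
      (∏ v ∈ T \ S0, ∏ P ∈ facs' v (h v), (1 - X ^ (v.deg * P.1.natDegree))) : PowerSeries R)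
      (∑ i, 2 * ℓ ^ padicValNat ℓ (constDeg k (L i)) + muL ℓ PK +
      ∑ v ∈ S0, ℓ ^ padicValNat ℓ v.deg +
      ∑ v ∈ T \ S0, ∑ P ∈ facs' v (h v), ℓ ^ padicValNat ℓ (v.deg * P.1.natDegree)) := by
    refine (((IsMu.prod _ fun i _ => (IsMu.zf (constDeg_pos k (L i))).pow 2).mul
      (isMu_num hq hPK)).mul (IsMu.prod _ fun v _ => IsMu.zf (deg_pos' v))).mul
      (IsMu.prod _ fun v _ => IsMu.prod _ fun P _ =>
        IsMu.zf (Nat.mul_pos (deg_pos' v) (MI.deg_pos P)))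
  have hV : IsMu ((1 - X) ^ 2 * (∏ i, (((PL i).map (Int.castRingHom R) : Polynomial R) :
      PowerSeries R)) * ∏ v ∈ T, ∏ i, ∏ w ∈ S v i, (1 - X ^ w.deg) : PowerSeries R)
      (2 + ∑ i, muL ℓ (PL i) + ∑ v ∈ T, ∑ i, ∑ w ∈ S v i, ℓ ^ padicValNat ℓ w.deg) := by
    have h2 : IsMu ((1 - X) ^ 2 : PowerSeries R) 2 := by
      have := (IsMu.oneX (R := R) (ℓ := ℓ)).pow 2
      rwa [mul_one] at this
    exact (h2.mul (IsMu.prod _ fun i _ => isMu_num hq (hPL i))).mul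
      (IsMu.prod _ fun v _ => IsMu.prod _ fun i _ => IsMu.prod _ fun w _ => IsMu.zf (deg_pos' w))
  refine order_le (ℓ := ℓ) hU hV (s := ∑ z ∈ Z, r z) (H := H.map ρ) ?_
  rw [← hred, ← hid]
  ring

end glob

end Pool.Agent.TH639.SK
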