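import Pool.Agent.TH639.SK.Model

/-!
The identity modulo a prime over `ℓ` for the `χ`-part of the `L`-function of the curve `y ^ N = f(x)`
over a function field.
-/

set_option autoImplicit false
set_option linter.all false
set_option maxHeartbeats 4000000

open PowerSeries FF Module

namespace Pool.Agent.TH639.SK

open Pool.Agent.W343.BSD Pool.Agent.W313.Hyp Pool.Agent.H123R3.ZT
open Pool.Agent.TH639.SC (lf lf_mod locL locL_mod_one IsMu one_sub_mod one_sub_ne)
open Pool.Agent.TH639.SG (locL_red' red_char')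

section glob

variable {k K : Type} [Field k] [Finite k] [Field K] [Algebra k K] [FF.IsFF k K] {ι : Type}
  [Fintype ι] {L : ι → Type} [∀ i, Field (L i)] [∀ i, Algebra k (L i)] [∀ i, Algebra K (L i)]
  [∀ i, IsScalarTower k K (L i)] {A : Type} [CommRing A] {R : Type} [Field R]

/-- The product over the closed points of the affine line over the places outside `S0`, for the
reductions `h v` of the models. -/
noncomputable def LX (χ : MulChar k A) (S0 : Finset (Place k K))
    (h : ∀ v : Place k K, Polynomial v.RF) : PowerSeries A :=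
  eulerProd (fun z : (Σ v : {v : Place k K // v ∉ S0}, MI v.1.RF) => z.1.1.deg * z.2.1.natDegree)
    (fun z => lf χ (h z.1.1) z.2.1 (z.1.1.deg * z.2.1.natDegree))

theorem finite_mod (v : Place k K) : Module.Finite k v.RF :=
  Module.finite_of_finrank_pos (deg_pos' v)

theorem LX_eq (χ : MulChar k A) (S0 : Finset (Place k K)) (h : ∀ v : Place k K, Polynomial v.RF)
    [DecidablePred fun v : Place k K => v ∉ S0] :
    LX χ S0 h = eulerProd (fun v : Place k K => v.deg)
      (fun v => if v ∉ S0 then locL χ (h v) v.deg else 1) := by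
  have hfv : ∀ v : Place k K, Finite v.RF := Pool.Agent.W313.Hyp.finite_RF
  unfold LX
  rw [eulerProd_sigma (ι := {v : Place k K // v ∉ S0}) (κ := fun v => MI v.1.RF)
    (d := fun v => v.1.deg) (e := fun v P => P.1.natDegree)
    (fun n => Set.Finite.of_finite_image (f := fun i : {v : Place k K // v ∉ S0} => i.1)
      ((places_fin n).subset (by rintro _ ⟨i, hi, rfl⟩; exact hi))
      (Set.injOn_of_injective Subtype.val_injective))
    (fun v => deg_pos' v.1) (fun v n => finite_deg_le n) (fun v P => MI.deg_pos P) _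
    (fun p => lf_mod _ _ _ _)]
  exact eulerProd_subtype (fun v : Place k K => v ∉ S0) (d := fun v => v.deg)
    (fun n => places_fin n) (f := fun v => locL χ (h v) v.deg)
    (fun v _ => locL_mod_one χ (h v) (deg_pos' v))

omit [Finite k] in
theorem card_RFR' [Finite k] (hq : ((Nat.card k : ℕ) : R) = 1) (v : Place k K) :
    ((Nat.card v.RF : ℕ) : R) = 1 := by
  have hvfin : Module.Finite k v.RF := finite_mod v
  rw [Module.natCard_eq_pow_finrank (K := k) (V := v.RF)]
  push_cast
  rw [hq, one_pow]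

/-- the zeta function modulo `ℓ` -/
theorem num_modR {F : Type} [Field F] [Algebra k F] [FF.IsFF k F]
    (hq : ((Nat.card k : ℕ) : R) = 1) {P : Polynomial ℤ} (hP : IsZetaNumRel k F P) :
    ((P.map (Int.castRingHom R) : Polynomial R) : PowerSeries R) *
      eulerProd (fun v : Place k F => v.deg) (fun v => (1 - X ^ v.deg : PowerSeries R)) =
        (1 - X ^ constDeg k F) ^ 2 := by
  have h1 := congrArg (PowerSeries.map (Int.castRingHom R)) hP
  rw [map_mul, map_mul, ← Polynomial.polynomial_map_coe, map_eulerProd (fun n => places_fin n)]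
    at h1
  have h2 : PowerSeries.map (Int.castRingHom R) (1 - X ^ constDeg k F) = 1 - X ^ constDeg k F := by
    rw [map_sub, map_one, map_pow, PowerSeries.map_X]
  have h3 : PowerSeries.map (Int.castRingHom R)
      (1 - C ((Nat.card k : ℤ) ^ constDeg k F) * X ^ constDeg k F) = 1 - X ^ constDeg k F := by
    have : (Int.castRingHom R) ((Nat.card k : ℤ) ^ constDeg k F) = 1 := by
      rw [map_pow, eq_intCast, Int.cast_natCast, hq, one_pow]
    rw [map_sub, map_one, map_mul, PowerSeries.map_C, this, map_pow, PowerSeries.map_X,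
      PowerSeries.C.map_one, one_mul]
  rw [h2, h3] at h1
  rw [pow_two, ← h1]
  congr 1
  congr 1
  funext v
  rw [map_sub, map_one, map_pow, PowerSeries.map_X]

/-- the places of the extension fields -/
theorem zeta_fiberR (i : ι) [FF.IsFF k (L i)] [FiniteDimensional K (L i)]
    {S : Place k K → ∀ i, Finset (Place k (L i))} {e f : Place k K → (Σ i, Place k (L i)) → ℕ}
    (D : ∀ v, FiberData v (S v) (e v) (f v)) :
    eulerProd (fun v : Place k K => v.deg)
      (fun v => ∏ w ∈ S v i, (1 - X ^ w.deg : PowerSeries R)) =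
    eulerProd (fun w : Place k (L i) => w.deg) (fun w => (1 - X ^ w.deg : PowerSeries R)) := by
  refine eulerProd_fiber (fun n => places_fin n) (fun n => places_fin n)
    (fun w => one_sub_mod le_rfl) (fun v => S v i) ?_ ?_ ?_
  · intro w
    obtain ⟨e', v, hv⟩ := exists_below (k := k) (K := K) w
    exact ⟨v, (D v).mem i w e' hv⟩
  · intro v v' w hw hw'
    exact over_unique_base ((D v).isOver i w hw) ((D v').isOver i w hw')
  · intro v w hw
    rw [(D v).deg i w hw]
    exact Nat.le_mul_of_pos_right _ ((D v).pos i w hw)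

open Classical in
/-- **the identity** -/
theorem identityK (ρ : A →+* R) {χ : MulChar k A} (hρ : ∀ u : k, u ≠ 0 → ρ (χ u) = 1)
    (hq : ((Nat.card k : ℕ) : R) = 1) {f : Polynomial K} {θ : ∀ i, L i}
    (hF : IsFam f θ) [∀ i, FF.IsFF k (L i)]
    {PK : Polynomial ℤ} (hPK : IsZetaNumRel k K PK) (hrK : constDeg k K = 1)
    {PL : ι → Polynomial ℤ} (hPL : ∀ i, IsZetaNumRel k (L i) (PL i))
    {S : Place k K → ∀ i, Finset (Place k (L i))} {e d : Place k K → (Σ i, Place k (L i)) → ℕ}
    (D : ∀ v, FiberData v (S v) (e v) (d v)) (S0 T : Finset (Place k K)) (hST : S0 ⊆ T)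
    (h : ∀ v : Place k K, Polynomial v.RF) (h0 : ∀ v, v ∉ S0 → h v ≠ 0)
    (hgood : ∀ v, v ∉ T → ∀ φ : ℕ → PowerSeries R,
      ∏ i, ∏ w ∈ S v i, φ w.deg = ∏ P ∈ facs' v (h v), φ (v.deg * P.1.natDegree)) :
    (∏ i, (1 - X ^ constDeg k (L i)) ^ 2) * ((PK.map (Int.castRingHom R) : Polynomial R) :
        PowerSeries R) * PowerSeries.map ρ (LX χ S0 h) * (∏ v ∈ S0, (1 - X ^ v.deg)) *
      (∏ v ∈ T \ S0, ∏ P ∈ facs' v (h v), (1 - X ^ (v.deg * P.1.natDegree))) =
    (1 - X) ^ 2 * (∏ i, (((PL i).map (Int.castRingHom R) : Polynomial R) : PowerSeries R)) *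
      ∏ v ∈ T, ∏ i, ∏ w ∈ S v i, (1 - X ^ w.deg) := by
  have hfv : ∀ v : Place k K, Finite v.RF := Pool.Agent.W313.Hyp.finite_RF
  have hfm : ∀ v : Place k K, Module.Finite k v.RF := finite_mod
  have hfd := hF.fd
  set Φ : Place k K → PowerSeries R := fun v => ∏ i, ∏ w ∈ S v i, (1 - X ^ w.deg) with hΦ
  set W : Place k K → PowerSeries R :=
    fun v => PowerSeries.map ρ (if v ∉ S0 then locL χ (h v) v.deg else 1) with hW
  set Z : Place k K → PowerSeries R := fun v => 1 - X ^ v.deg with hZ
  set Q : Place k K → PowerSeries R :=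
    fun v => ∏ P ∈ facs' v (h v), (1 - X ^ (v.deg * P.1.natDegree)) with hQ
  have hΦ0 : ∀ i v, (X : PowerSeries R) ^ v.deg ∣ (∏ w ∈ S v i, (1 - X ^ w.deg)) - 1 := by
    intro i v
    have h := prod_congr_mod (S v i) (fun w => (1 - X ^ w.deg : PowerSeries R))
      (fun _ => 1) v.deg (fun w hw => one_sub_mod (by
        rw [(D v).deg i w hw]
        exact Nat.le_mul_of_pos_right _ ((D v).pos i w hw)))
    rwa [Finset.prod_const_one] at h
  have hΦ1 : ∀ v, (X : PowerSeries R) ^ v.deg ∣ Φ v - 1 := by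
    intro v
    have h := prod_congr_mod Finset.univ (fun i => ∏ w ∈ S v i, (1 - X ^ w.deg : PowerSeries R))
      (fun _ => 1) v.deg (fun i _ => hΦ0 i v)
    rwa [Finset.prod_const_one] at h
  have hloc : ∀ v : Place k K,
      (X : PowerSeries A) ^ v.deg ∣ (if v ∉ S0 then locL χ (h v) v.deg else 1) - 1 := by
    intro v
    split_ifs with hv
    · rw [sub_self]; exact dvd_zero _
    · exact locL_mod_one χ (h v) (deg_pos' v)
  have hW1 : ∀ v, (X : PowerSeries R) ^ v.deg ∣ W v - 1 := by
    intro v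
    have h3 := map_dvd (PowerSeries.map ρ) (hloc v)
    rwa [map_sub, map_one, map_pow, PowerSeries.map_X] at h3
  have hZ1 : ∀ v, (X : PowerSeries R) ^ v.deg ∣ Z v - 1 := fun v => one_sub_mod le_rfl
  have hWR : ∀ v, v ∉ S0 → W v * Q v = Z v := by
    intro v hv
    rw [hW, hQ, hZ]
    show PowerSeries.map ρ (if v ∉ S0 then locL χ (h v) v.deg else 1) * _ = _
    rw [if_pos hv]
    exact locL_red' ρ hρ (card_RFR' hq v) (h0 v hv) (deg_pos' v)
  have hWS : ∀ v, v ∈ S0 → W v = 1 := by
    intro v hv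
    show PowerSeries.map ρ (if v ∉ S0 then locL χ (h v) v.deg else 1) = 1
    rw [if_neg (not_not.2 hv), map_one]
  have hLS : PowerSeries.map ρ (LX χ S0 h) = eulerProd (fun v : Place k K => v.deg) W := by
    rw [LX_eq χ S0 h, map_eulerProd (fun n => places_fin n)]
  have hgood' : ∀ v, v ∉ T → Φ v * W v = Z v := by
    intro v hv
    have hv0 : v ∉ S0 := fun h => hv (hST h)
    rw [← hWR v hv0, mul_comm]
    congr 1
    exact hgood v hv (fun n => 1 - X ^ n)
  have key := fin_factor' (F := fun v => Φ v * W v) (W := Z) (fun n => places_fin n)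
    (fun v => one_mod_mul (hΦ1 v) (hW1 v)) hZ1 T hgood'
  have hEΦ : eulerProd (fun v : Place k K => v.deg) Φ =
      ∏ i, eulerProd (fun w : Place k (L i) => w.deg)
        (fun w => (1 - X ^ w.deg : PowerSeries R)) := by
    rw [hΦ, eulerProd_prod (fun n => places_fin n) Finset.univ
      (fun i v => ∏ w ∈ S v i, (1 - X ^ w.deg : PowerSeries R)) (fun i v => hΦ0 i v)]
    exact Finset.prod_congr rfl fun i _ => zeta_fiberR i D
  rw [eulerProd_mul (fun n => places_fin n) hΦ1 hW1, hEΦ, ← hLS] at key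
  have hK := num_modR (R := R) hq hPK
  rw [hrK, pow_one] at hK
  have hLi := fun i => num_modR (R := R) hq (hPL i)
  have hprod : (∏ i, (((PL i).map (Int.castRingHom R) : Polynomial R) : PowerSeries R)) *
      ∏ i, eulerProd (fun w : Place k (L i) => w.deg) (fun w => (1 - X ^ w.deg : PowerSeries R)) =
      ∏ i, (1 - X ^ constDeg k (L i)) ^ 2 := by
    rw [← Finset.prod_mul_distrib, Finset.prod_congr rfl (fun i _ => hLi i)]
  have hZne : ∀ v, Z v ≠ 0 := fun v => one_sub_ne (deg_pos' v)
  have hsplit : ∀ G : Place k K → PowerSeries R,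
      ∏ v ∈ T, G v = (∏ v ∈ S0, G v) * ∏ v ∈ T \ S0, G v := by
    intro G
    rw [mul_comm, Finset.prod_sdiff hST]
  have hTW : ∏ v ∈ T, (Φ v * W v) = (∏ v ∈ T, Φ v) * ∏ v ∈ T \ S0, W v := by
    rw [Finset.prod_mul_distrib, hsplit W, Finset.prod_eq_one (fun v hv => hWS v hv), one_mul]
  have hRW : (∏ v ∈ T \ S0, W v) * (∏ v ∈ T \ S0, Q v) = ∏ v ∈ T \ S0, Z v := by
    rw [← Finset.prod_mul_distrib]
    exact Finset.prod_congr rfl fun v hv => hWR v (Finset.mem_sdiff.1 hv).2
  have hZT : ∏ v ∈ T \ S0, Z v ≠ 0 := Finset.prod_ne_zero_iff.2 fun v _ => hZne v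
  rw [hTW, hsplit Z] at key
  -- cancel
  have key2 : (∏ i, eulerProd (fun w : Place k (L i) => w.deg)
      (fun w => (1 - X ^ w.deg : PowerSeries R))) * PowerSeries.map ρ (LX χ S0 h) *
      (∏ v ∈ S0, Z v) * (∏ v ∈ T \ S0, Q v) =
      eulerProd (fun v : Place k K => v.deg) Z * ∏ v ∈ T, Φ v := by
    apply mul_right_cancel₀ hZT
    linear_combination (∏ v ∈ T \ S0, Q v) * key +
      eulerProd (fun v : Place k K => v.deg) Z * (∏ v ∈ T, Φ v) * hRW
  rw [← hprod, ← hK]
  linear_combination (∏ i, (((PL i).map (Int.castRingHom R) : Polynomial R) : PowerSeries R)) *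
    ((PK.map (Int.castRingHom R) : Polynomial R) : PowerSeries R) * key2

end glob

end Pool.Agent.TH639.SK
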