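import Pool.Agent.W313.Hyp.Stmt
import Pool.Agent.TH639.SG.Core

/-!
The models `y ^ N = u ^ (- N n) f(u ^ N x + r)`.
-/

set_option autoImplicit false
set_option linter.all false
set_option maxHeartbeats 4000000

open Polynomial FF

namespace Pool.Agent.TH639.SK

open Pool.Agent.W343.BSD Pool.Agent.W313.Hyp

section fam

variable {K : Type} [Field K] {ι : Type} [Fintype ι] {L : ι → Type} [∀ i, Field (L i)]
  [∀ i, Algebra K (L i)] {f : K[X]} {θ : ∀ i, L i} {N : ℕ}

/-- The polynomial obtained by the substitution `x ↦ u ^ N x + r`, divided by `u ^ (N n)`, where `n`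
is the degree. -/
noncomputable def modelN (N : ℕ) (f : K[X]) (u r : K) : K[X] :=
  C ((u ^ (N * f.natDegree))⁻¹) * f.comp (C (u ^ N) * X + C r)

theorem modelN_eq (f : K[X]) (u r : K) :
    modelN N f u r = C ((u ^ (N * f.natDegree))⁻¹) * f.comp (C (u ^ N) * X + C r) := rfl

theorem natDegree_linN {u r : K} (hu : u ≠ 0) : (C (u ^ N) * X + C r : K[X]).natDegree = 1 :=
  natDegree_linear (pow_ne_zero N hu)

theorem natDegree_modelN {u r : K} (hu : u ≠ 0) : (modelN N f u r).natDegree = f.natDegree := by
  rw [modelN, natDegree_C_mul (inv_ne_zero (pow_ne_zero _ hu)), natDegree_comp, natDegree_linN hu,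
    mul_one]

theorem monic_modelN {u r : K} (hu : u ≠ 0) (hf : f.Monic) : (modelN N f u r).Monic := by
  rw [Monic, modelN, leadingCoeff_mul, leadingCoeff_C, leadingCoeff_comp (by rw [natDegree_linN hu]; norm_num),
    hf.leadingCoeff, one_mul, leadingCoeff_linear (pow_ne_zero N hu), ← pow_mul, 
    inv_mul_cancel₀ (pow_ne_zero _ hu)]

theorem modelN_prod {u r : K} (hu : u ≠ 0) {J : Type} (s : Finset J) (P : J → K[X])
    (hP : ∀ i ∈ s, (P i).Monic) : modelN N (∏ i ∈ s, P i) u r = ∏ i ∈ s, modelN N (P i) u r := by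
  simp only [modelN]
  rw [Finset.prod_mul_distrib, prod_comp, natDegree_prod_of_monic _ _ hP, Finset.mul_sum,
    ← Finset.prod_pow_eq_pow_sum, ← Finset.prod_inv_distrib, map_prod]

theorem irreducible_modelN {u r : K} (hu : u ≠ 0) (hf : Irreducible f) :
    Irreducible (modelN N f u r) := by
  let _ : Invertible (u ^ N) := invertibleOfNonzero (pow_ne_zero N hu)
  have h1 : Irreducible (f.comp (C (u ^ N) * X + C r)) := by
    have h2 := (MulEquiv.irreducible_iff (algEquivCMulXAddC (u ^ N) r)).2 hf
    rwa [algEquivCMulXAddC_apply, ← comp_eq_aeval] at h2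
  rw [modelN]
  exact (irreducible_isUnit_mul
    (isUnit_C.2 (isUnit_iff_ne_zero.2 (inv_ne_zero (pow_ne_zero _ hu))))).2 h1

theorem separable_modelN {u r : K} (hu : u ≠ 0) (hf : f.Separable) : (modelN N f u r).Separable := by
  let _ : Invertible (u ^ N) := invertibleOfNonzero (pow_ne_zero N hu)
  have hd : derivative (f.comp (C (u ^ N) * X + C r)) =
      C (u ^ N) * (derivative f).comp (C (u ^ N) * X + C r) := by
    rw [derivative_comp, derivative_add, derivative_C_mul, derivative_X, derivative_C, mul_one,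
      add_zero]
  have h1 : (f.comp (C (u ^ N) * X + C r)).Separable := by
    obtain ⟨a, b, hab⟩ := hf
    refine ⟨a.comp (C (u ^ N) * X + C r), C ((u ^ N)⁻¹) * b.comp (C (u ^ N) * X + C r), ?_⟩
    have h2 := congrArg (fun p => p.comp (C (u ^ N) * X + C r)) hab
    simp only [add_comp, mul_comp, one_comp] at h2
    rw [hd]
    have h3 : (C ((u ^ N)⁻¹) : K[X]) * C (u ^ N) = 1 := by
      rw [← C_mul, inv_mul_cancel₀ (pow_ne_zero N hu), C_1]
    linear_combination h2 + b.comp (C (u ^ N) * X + C r) *
      (derivative f).comp (C (u ^ N) * X + C r) * h3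
  rw [modelN]
  exact (Separable.unit_mul (isUnit_C.2 (isUnit_iff_ne_zero.2 (inv_ne_zero (pow_ne_zero _ hu)))) h1)

theorem scaleN (h : IsFam f θ) {u r : K} (hu : u ≠ 0) :
    IsFam (modelN N f u r) (fun i => (θ i - algebraMap K (L i) r) / algebraMap K (L i) (u ^ N)) := by
  have hu2 : ∀ i, algebraMap K (L i) (u ^ N) ≠ 0 := fun i =>
    (_root_.map_ne_zero _).2 (pow_ne_zero N hu)
  have hmin : ∀ i, minpoly K ((θ i - algebraMap K (L i) r) / algebraMap K (L i) (u ^ N)) =
      modelN N (minpoly K (θ i)) u r := by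
    intro i
    symm
    apply minpoly.eq_of_irreducible_of_monic
      (irreducible_modelN hu (minpoly.irreducible (h.int i)))
    · rw [modelN, map_mul, aeval_comp, map_add, map_mul, aeval_C, aeval_X, aeval_C, aeval_C,
        mul_div_cancel₀ _ (hu2 i), sub_add_cancel, minpoly.aeval, mul_zero]
    · exact monic_modelN hu (minpoly.monic (h.int i))
  refine ⟨monic_modelN hu h.monic, separable_modelN hu h.sepf, fun i => ?_, ?_⟩
  · rw [eq_top_iff, ← h.gen i, IntermediateField.adjoin_simple_le_iff]
    have h1 : θ i = algebraMap K (L i) (u ^ N) *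
        ((θ i - algebraMap K (L i) r) / algebraMap K (L i) (u ^ N)) + algebraMap K (L i) r := by
      rw [mul_div_cancel₀ _ (hu2 i), sub_add_cancel]
    have h2 : algebraMap K (L i) (u ^ N) *
        ((θ i - algebraMap K (L i) r) / algebraMap K (L i) (u ^ N)) + algebraMap K (L i) r ∈
        IntermediateField.adjoin K
          {(θ i - algebraMap K (L i) r) / algebraMap K (L i) (u ^ N)} :=
      add_mem (mul_mem (IntermediateField.algebraMap_mem _ _)
        (IntermediateField.mem_adjoin_simple_self K _)) (IntermediateField.algebraMap_mem _ _)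
    rwa [← h1] at h2
  · rw [Finset.prod_congr rfl (fun i _ => hmin i), ← modelN_prod hu Finset.univ
      (fun i => minpoly K (θ i)) (fun i _ => minpoly.monic (h.int i)), h.prod]

end fam

end Pool.Agent.TH639.SK
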